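import Pool.Agent.H25.GF.Dv

/-!
# [GL2, chapter C] Chart: the valuations which are integral on one chart

`x : F`, `F` finite and separable over `κ(x)`: the primes of the integral closure of `κ[x]` in `F`.
`cap`: an element of `F` which is integral over `κ[x]` and over `κ[x⁻¹]`, `x` transcendental over `κ`, is algebraic over
`κ`: its minimal polynomial over `κ(x)` has coefficients in `κ[x]` and in `κ[x⁻¹]`.
-/

set_option autoImplicit false

namespace Pool.Agent.H25.GF

open IsDedekindDomain Pool.Agent.H54.TT IntermediateField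
open scoped algebraAdjoinAdjoin Polynomial

variable {κ F : Type} [Field κ] [Field F] [Algebra κ F]

theorem pir_adjoin (x : F) : IsPrincipalIdealRing (Algebra.adjoin κ {x}) := by
  have h : Function.Surjective (fun p : κ[X] =>
      (⟨Polynomial.aeval x p, by
        rw [Algebra.adjoin_singleton_eq_range_aeval]; exact ⟨p, rfl⟩⟩ : Algebra.adjoin κ {x})) := by
    rintro ⟨y, hy⟩
    rw [Algebra.adjoin_singleton_eq_range_aeval] at hy
    obtain ⟨p, hp⟩ := hy
    exact ⟨p, Subtype.ext hp⟩
  let f : κ[X] →+* Algebra.adjoin κ {x} :=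
    { toFun := fun p => ⟨Polynomial.aeval x p, by
        rw [Algebra.adjoin_singleton_eq_range_aeval]; exact ⟨p, rfl⟩⟩
      map_one' := Subtype.ext (map_one _)
      map_mul' := fun p q => Subtype.ext (map_mul _ _ _)
      map_zero' := Subtype.ext (map_zero _)
      map_add' := fun p q => Subtype.ext (map_add _ _ _) }
  exact IsPrincipalIdealRing.of_surjective f h

theorem ded_adjoin (x : F) : IsDedekindDomain (Algebra.adjoin κ {x}) := by
  have := pir_adjoin (κ := κ) x
  infer_instance

/-- the valuations of one chart -/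
theorem chart (x : F) [FiniteDimensional κ⟮x⟯ F] [Algebra.IsSeparable κ⟮x⟯ F] :
    ∃ (V : Type) (v : V → F → ℤ), (∀ i, IsDV (v i)) ∧ (∀ z, z ≠ 0 → {i | v i z ≠ 0}.Finite) ∧
      ∀ z, IsIntegral (Algebra.adjoin κ {x}) z ↔ ∀ i, z ≠ 0 → 0 ≤ v i z := by
  have h1 := ded_adjoin (κ := κ) x
  have h2 : IsDedekindDomain (integralClosure (Algebra.adjoin κ {x}) F) :=
    integralClosure.isDedekindDomain (Algebra.adjoin κ {x}) κ⟮x⟯ F
  have h3 : IsFractionRing (integralClosure (Algebra.adjoin κ {x}) F) F :=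
    integralClosure.isFractionRing_of_finite_extension κ⟮x⟯ F
  refine ⟨HeightOneSpectrum (integralClosure (Algebra.adjoin κ {x}) F), fun P => dv P,
    fun P => isDV_dv P, fun z hz => dv_finite hz, fun z => ⟨fun hz P hz0 => ?_, fun hz => ?_⟩⟩
  · exact dv_of_mem P (⟨z, hz⟩ : integralClosure (Algebra.adjoin κ {x}) F) hz0
  · obtain ⟨r, hr⟩ := exists_of_dv hz
    rw [← hr]
    exact r.2

/-- `κ[x]` and `κ[x⁻¹]` meet in `κ` -/
theorem inter_adjoin {x c : F} (hx : Transcendental κ x) (h1 : c ∈ Algebra.adjoin κ {x})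
    (h2 : c ∈ Algebra.adjoin κ {x⁻¹}) : ∃ a : κ, algebraMap κ F a = c := by
  rw [Algebra.adjoin_singleton_eq_range_aeval] at h1 h2
  obtain ⟨p, rfl⟩ := h1
  obtain ⟨q, hq⟩ := h2
  have hx0 : x ≠ 0 := by
    rintro rfl
    exact hx isAlgebraic_zero
  -- `x ^ m q(1/x)` is the value of the reversed polynomial
  have h3 : Polynomial.aeval x q.reverse = Polynomial.aeval x p * x ^ q.natDegree := by
    let : Invertible x⁻¹ := invertibleOfNonzero (inv_ne_zero hx0)
    have h4 := Polynomial.eval₂_reverse_mul_pow (algebraMap κ F) x⁻¹ q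
    have h5 : (⅟ x⁻¹ : F) = x := by
      rw [invOf_eq_inv, inv_inv]
    rw [h5] at h4
    have hq' : Polynomial.eval₂ (algebraMap κ F) x⁻¹ q = Polynomial.aeval x p := hq
    rw [hq'] at h4
    rw [← h4, mul_assoc, inv_pow, inv_mul_cancel₀ (pow_ne_zero _ hx0), mul_one]
    rfl
  have h4 : p * Polynomial.X ^ q.natDegree = q.reverse := by
    have h5 : Polynomial.aeval x (p * Polynomial.X ^ q.natDegree - q.reverse) = 0 := by
      rw [map_sub, map_mul, map_pow, Polynomial.aeval_X, h3, sub_self]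
    exact sub_eq_zero.1 ((transcendental_iff.1 hx) _ h5)
  have h5 : p.natDegree = 0 := by
    rcases eq_or_ne p 0 with hp | hp
    · rw [hp, Polynomial.natDegree_zero]
    · have h6 : (p * Polynomial.X ^ q.natDegree).natDegree = p.natDegree + q.natDegree := by
        rw [Polynomial.natDegree_mul hp (pow_ne_zero _ Polynomial.X_ne_zero), Polynomial.natDegree_X_pow]
      have h7 := Polynomial.reverse_natDegree_le q
      rw [h4] at h6
      omega
  refine ⟨p.coeff 0, ?_⟩
  change _ = Polynomial.aeval x p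
  conv_rhs => rw [Polynomial.eq_C_of_natDegree_eq_zero h5]
  rw [Polynomial.aeval_C]

/-- the coefficients of the minimal polynomial over `κ(x)` of an element which is integral over `κ[x]` -/
theorem coeff_mem {x z : F} (h : IsIntegral (Algebra.adjoin κ {x}) z) (L : IntermediateField κ F)
    (hL : κ⟮x⟯ = L) (m : ℕ) :
    (((minpoly L z).map (algebraMap L F)).coeff m) ∈ Algebra.adjoin κ {x} := by
  subst hL
  have h1 := ded_adjoin (κ := κ) x
  have h2 := minpoly.isIntegrallyClosed_eq_field_fractions' κ⟮x⟯ h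
  rw [h2, Polynomial.map_map, ← IsScalarTower.algebraMap_eq, Polynomial.coeff_map]
  exact ((minpoly (Algebra.adjoin κ {x}) z).coeff m).2

theorem cap {x z : F} (hx : Transcendental κ x) (h1 : IsIntegral (Algebra.adjoin κ {x}) z)
    (h2 : IsIntegral (Algebra.adjoin κ {x⁻¹}) z) : IsAlgebraic κ z := by
  have hL : κ⟮x⁻¹⟯ = κ⟮x⟯ := by
    refine le_antisymm ?_ ?_
    · rw [adjoin_simple_le_iff]
      exact inv_mem (mem_adjoin_simple_self κ x)
    · rw [adjoin_simple_le_iff]
      have := inv_mem (mem_adjoin_simple_self κ x⁻¹)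
      rwa [inv_inv] at this
  have h3 : ∀ m, ∃ a : κ, algebraMap κ F a = ((minpoly κ⟮x⟯ z).map (algebraMap κ⟮x⟯ F)).coeff m :=
    fun m => inter_adjoin hx (coeff_mem h1 _ rfl m) (coeff_mem h2 _ hL m)
  have h4 : (minpoly κ⟮x⟯ z).map (algebraMap κ⟮x⟯ F) ∈ Polynomial.lifts (algebraMap κ F) := by
    rw [Polynomial.lifts_iff_coeff_lifts]
    intro m
    obtain ⟨a, ha⟩ := h3 m
    exact ⟨a, ha⟩
  have hint : IsIntegral κ⟮x⟯ z := h1.tower_top
  obtain ⟨q, hq⟩ := (Polynomial.mem_lifts _).1 h4
  have hmon : ((minpoly κ⟮x⟯ z).map (algebraMap κ⟮x⟯ F)).Monic := (minpoly.monic hint).map _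
  refine ⟨q, ?_, ?_⟩
  · rintro rfl
    rw [Polynomial.map_zero] at hq
    exact hmon.ne_zero hq.symm
  · rw [← Polynomial.eval_map_algebraMap, hq, Polynomial.eval_map_algebraMap, minpoly.aeval]

end Pool.Agent.H25.GF
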