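import Pool.Agent.H54.TT.Val

/-!
# [GL2, chapter C] Dv: the valuations of a Dedekind domain

`R` a Dedekind domain with field of fractions `K`, `P` a nonzero prime: `dv P : K → ℤ` the order at `P`.
`isDV_dv`, `dv_finite` (finite support), `exists_of_dv` (`x` with all orders nonnegative is in `R`).
-/

set_option autoImplicit false

namespace Pool.Agent.H25.GF

open IsDedekindDomain Pool.Agent.H54.TT

variable {R K : Type} [CommRing R] [IsDedekindDomain R] [Field K] [Algebra R K] [IsFractionRing R K]

/-- the order at the prime `P` -/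
noncomputable def dv (P : HeightOneSpectrum R) (x : K) : ℤ := -(WithZero.log (P.valuation K x))

theorem dv_nonneg_iff (P : HeightOneSpectrum R) {x : K} (hx : x ≠ 0) :
    0 ≤ dv P x ↔ P.valuation K x ≤ 1 := by
  have h : P.valuation K x ≠ 0 := (Valuation.ne_zero_iff _).2 hx
  rw [dv, neg_nonneg, ← WithZero.log_one, WithZero.log_le_log h one_ne_zero]

theorem dv_eq_zero_iff (P : HeightOneSpectrum R) {x : K} (hx : x ≠ 0) :
    dv P x = 0 ↔ P.valuation K x = 1 := by
  have h : P.valuation K x ≠ 0 := (Valuation.ne_zero_iff _).2 hx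
  have h2 : P.valuation K x⁻¹ ≠ 0 := (Valuation.ne_zero_iff _).2 (inv_ne_zero hx)
  constructor
  · intro h0
    refine le_antisymm ((dv_nonneg_iff P hx).1 h0.ge) ?_
    rw [← WithZero.log_le_log one_ne_zero h, WithZero.log_one]
    have h1 : dv P x = -(WithZero.log (P.valuation K x)) := rfl
    omega
  · intro h0
    rw [dv, h0, WithZero.log_one, neg_zero]

theorem isDV_dv (P : HeightOneSpectrum R) : IsDV (dv (K := K) P) where
  mul x y hx hy := by
    have h : P.valuation K x ≠ 0 := (Valuation.ne_zero_iff _).2 hx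
    have h' : P.valuation K y ≠ 0 := (Valuation.ne_zero_iff _).2 hy
    rw [dv, dv, dv, map_mul, WithZero.log_mul h h']
    ring
  add x y hx hy hxy := by
    have h : P.valuation K x ≠ 0 := (Valuation.ne_zero_iff _).2 hx
    have h' : P.valuation K y ≠ 0 := (Valuation.ne_zero_iff _).2 hy
    have h'' : P.valuation K (x + y) ≠ 0 := (Valuation.ne_zero_iff _).2 hxy
    have h1 := (P.valuation K).map_add x y
    rcases le_max_iff.1 h1 with h2 | h2
    · have h3 := (WithZero.log_le_log h'' h).2 h2
      exact (min_le_left _ _).trans (neg_le_neg h3)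
    · have h3 := (WithZero.log_le_log h'' h').2 h2
      exact (min_le_right _ _).trans (neg_le_neg h3)
  unif := by
    obtain ⟨p, hp⟩ := P.valuation_exists_uniformizer K
    refine ⟨p, ?_, ?_⟩
    · rintro rfl
      rw [map_zero] at hp
      exact (WithZero.exp_ne_zero hp.symm).elim
    · rw [dv, hp, WithZero.log_exp, neg_neg]

theorem dv_finite {x : K} (hx : x ≠ 0) : {P : HeightOneSpectrum R | dv P x ≠ 0}.Finite := by
  refine ((HeightOneSpectrum.Support.finite R x).union (HeightOneSpectrum.Support.finite R x⁻¹)).subset ?_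
  intro P hP
  have h1 : P.valuation K x ≠ 1 := fun h => hP ((dv_eq_zero_iff P hx).2 h)
  rcases lt_or_gt_of_ne h1 with h2 | h2
  · right
    change 1 < P.valuation K x⁻¹
    have h : 0 < P.valuation K x := zero_lt_iff.2 ((Valuation.ne_zero_iff _).2 hx)
    rw [map_inv₀]
    exact (one_lt_inv₀ h).2 h2
  · left
    exact h2

theorem exists_of_dv {x : K} (h : ∀ P : HeightOneSpectrum R, x ≠ 0 → 0 ≤ dv P x) :
    x ∈ (algebraMap R K).range := by
  refine HeightOneSpectrum.mem_integers_of_valuation_le_one K x fun P => ?_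
  rcases eq_or_ne x 0 with hx | hx
  · rw [hx, map_zero]
    exact zero_le_one
  · exact (dv_nonneg_iff P hx).1 (h P hx)

theorem dv_of_mem (P : HeightOneSpectrum R) (r : R) (hr : algebraMap R K r ≠ 0) :
    0 ≤ dv P (algebraMap R K r) := (dv_nonneg_iff P hr).2 (P.valuation_le_one r)

end Pool.Agent.H25.GF
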