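import Pool.Agent.H25.GF.Step

/-!
# [GL2, chapter C] Ind: induction over all fields

A property `P` of fields holds for every field if (`union`) it holds for `F` as soon as every finite subset of `F` is
contained in a subfield with `P`, it holds for finite fields and number fields, and (`step`) it holds for a countable
field `F` with a family of discrete valuations with finite supports (`Vals`) such that the elements with all orders
nonnegative form a subfield `κ` and `P` holds for all algebraic extensions of `κ`.
-/

set_option autoImplicit false

namespace Pool.Agent.H25.GF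

open IsDedekindDomain Pool.Agent.H54.TT IntermediateField
open scoped Polynomial

theorem countable_of_ess {k F : Type} [Field k] [Field F] [Algebra k F] [Countable k] [Algebra.EssFiniteType k F] :
    Countable F := by
  obtain ⟨s, hs⟩ := fg_top k F
  have h : Function.Surjective (fun p : MvPolynomial (s : Set F) k × MvPolynomial (s : Set F) k =>
      (MvPolynomial.aeval Subtype.val p.1 / MvPolynomial.aeval Subtype.val p.2 : F)) := by
    intro x
    have hx : x ∈ adjoin k (s : Set F) := by
      rw [hs]
      exact mem_top
    obtain ⟨r, t, hrt⟩ := (mem_adjoin_iff k x).1 hx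
    exact ⟨(r, t), hrt.symm⟩
  have h1 : Countable (MvPolynomial (s : Set F) k) := by
    rw [← Cardinal.mk_le_aleph0_iff]
    refine MvPolynomial.cardinalMk_le_max.trans ?_
    simp
  exact h.countable

theorem trdeg_alg (k κ E : Type) [Field k] [Field κ] [Field E] [Algebra k κ] [Algebra k E] [Algebra κ E]
    [IsScalarTower k κ E] [Algebra.IsAlgebraic κ E] : Algebra.trdeg k E = Algebra.trdeg k κ := by
  rw [← trdeg_add_eq k κ, trdeg_eq_zero (R := κ) (A := E), add_zero]

/-- induction over the extensions of a perfect field -/
theorem ind_over {k : Type} [Field k] [PerfectField k] (P : (F : Type) → [Field F] → Prop)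
    (union : ∀ (F : Type) [Field F], (∀ t : Finset F, ∃ L : Subfield F, (t : Set F) ⊆ L ∧ P L) → P F)
    (base : ∀ (F : Type) [Field F] [Algebra k F] [FiniteDimensional k F], P F)
    (step' : ∀ (F : Type) [Field F] [Algebra k F] [Algebra.EssFiniteType k F] (V : Type) (v : V → F → ℤ)
      (κ : Subfield F), Vals F V v (κ : Set F) →
      (∀ (E : Type) [Field E] [Algebra κ E] [Algebra.IsAlgebraic κ E], P E) → P F)
    (F : Type) [Field F] [Algebra k F] : P F := by
  classical
  -- reduction to finitely generated fields
  have red : ∀ (F : Type) [Field F] [Algebra k F],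
      (∀ L : IntermediateField k F, Algebra.EssFiniteType k L → P L) → P F := by
    intro F _ _ h
    refine union F fun t => ⟨(adjoin k (t : Set F)).toSubfield, ?_, ?_⟩
    · exact subset_adjoin k (t : Set F)
    · exact h (adjoin k (t : Set F)) (essFiniteType_iff.2 ⟨t, rfl⟩)
  -- bounded transcendence degree
  have bdd : ∀ n : ℕ, ∀ (F : Type) [Field F] [Algebra k F], Algebra.trdeg k F ≤ n → P F := by
    intro n
    induction n with
    | zero =>
      intro F _ _ hF
      refine red F fun L hL => ?_
      have h1 : Algebra.trdeg k F = 0 := le_antisymm (by simpa using hF) zero_le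
      have h2 : Algebra.IsAlgebraic k F := trdeg_eq_zero_iff.1 h1
      have h3 : Algebra.IsAlgebraic k L := inferInstance
      have h4 : FiniteDimensional k L := Algebra.finite_of_essFiniteType_of_isAlgebraic
      exact base L
    | succ n ih =>
      intro F _ _ hF
      refine red F fun L hL => ?_
      by_cases h3 : Algebra.IsAlgebraic k L
      · have h4 : FiniteDimensional k L := Algebra.finite_of_essFiniteType_of_isAlgebraic
        exact base L
      · have h5 : Algebra.trdeg k L ≤ n + 1 := by
          have h6 : Algebra.trdeg k L ≤ Algebra.trdeg k F := trdeg_le_of_injective L.val Subtype.val_injective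
          refine h6.trans ?_
          push_cast at hF
          exact hF
        obtain ⟨V, v, κ, hv, hκ⟩ := step h5 h3
        refine step' L V v κ.toSubfield hv ?_
        intro E _ _ _
        let : Algebra κ E := (inferInstance : Algebra κ.toSubfield E)
        let : Algebra k E := ((algebraMap κ E).comp (algebraMap k κ)).toAlgebra
        have htow : IsScalarTower k κ E := IsScalarTower.of_algebraMap_eq fun _ => rfl
        have halg : Algebra.IsAlgebraic κ E := (inferInstance : Algebra.IsAlgebraic κ.toSubfield E)
        refine ih E ?_
        exact (trdeg_alg k κ E).le.trans hκ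
  refine red F fun L hL => ?_
  obtain ⟨n, hn⟩ := Cardinal.lt_aleph0.1 (trdeg_lt_aleph0 (K := k) (L := L))
  exact bdd n L hn.le

/-- **Induction over all fields.** -/
theorem ind_all (P : (F : Type) → [Field F] → Prop)
    (union : ∀ (F : Type) [Field F], (∀ t : Finset F, ∃ L : Subfield F, (t : Set F) ⊆ L ∧ P L) → P F)
    (fin : ∀ (F : Type) [Field F] [Finite F], P F)
    (nf : ∀ (F : Type) [Field F] [NumberField F], P F)
    (step' : ∀ (F : Type) [Field F] [Countable F] (V : Type) (v : V → F → ℤ)
      (κ : Subfield F), Vals F V v (κ : Set F) →
      (∀ (E : Type) [Field E] [Algebra κ E] [Algebra.IsAlgebraic κ E], P E) → P F)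
    (F : Type) [Field F] : P F := by
  obtain h | ⟨p, hp, hpk⟩ := CharP.exists' F
  · refine ind_over (k := ℚ) P union ?_ ?_ F
    · intro F' _ _ _
      have : CharZero F' := algebraRat.charZero F'
      have e : (inferInstance : Algebra ℚ F') = DivisionRing.toRatAlgebra := Subsingleton.elim _ _
      have : NumberField F' :=
        { to_charZero := this
          to_finiteDimensional := by
            rw [← e]
            infer_instance }
      exact nf F'
    · intro F' _ _ _ V v κ hv hE
      have : Countable F' := countable_of_ess (k := ℚ)
      exact step' F' V v κ hv hE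
  · let : Algebra (ZMod p) F := ZMod.algebra F p
    refine ind_over (k := ZMod p) P union ?_ ?_ F
    · intro F' _ _ _
      have : Finite F' := Module.finite_of_finite (ZMod p)
      exact fin F'
    · intro F' _ _ _ V v κ hv hE
      have : Countable F' := countable_of_ess (k := ZMod p)
      exact step' F' V v κ hv hE

end Pool.Agent.H25.GF
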