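import Pool.Agent.H25.GF.Chart

/-!
# [GL2, chapter C] Step: the valuations of a function field

`F` finitely generated over the perfect field `k`, not algebraic. `s` a separating transcendence basis, `x ∈ s`,
`κ₀ = k(s - x)`, `F` finite and separable over `κ₀(x) = κ₀(1/x)`. The valuations: the primes of the integral closures of
`κ₀[x]` and `κ₀[1/x]`. The elements with all orders nonnegative are the algebraic closure `κ` of `κ₀` in `F`.
-/

set_option autoImplicit false

namespace Pool.Agent.H25.GF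

open IsDedekindDomain Pool.Agent.H54.TT IntermediateField
open scoped algebraAdjoinAdjoin Polynomial

/-- a field with the valuations of a function field in one variable over `κ` -/
def Vals (F : Type) [Field F] (V : Type) (v : V → F → ℤ) (κ : Set F) : Prop :=
  (∀ i, IsDV (v i)) ∧ (∀ z, z ≠ 0 → {i | v i z ≠ 0}.Finite) ∧ ∀ z, z ∈ κ ↔ ∀ i, z ≠ 0 → 0 ≤ v i z

theorem vals_of_transcendental {κ₀ F : Type} [Field κ₀] [Field F] [Algebra κ₀ F] {x : F}
    (hx : Transcendental κ₀ x) [FiniteDimensional κ₀⟮x⟯ F] [Algebra.IsSeparable κ₀⟮x⟯ F] :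
    ∃ (V : Type) (v : V → F → ℤ), Vals F V v {z | IsAlgebraic κ₀ z} := by
  have hL : κ₀⟮x⟯ = κ₀⟮x⁻¹⟯ := by
    refine le_antisymm ?_ ?_
    · rw [adjoin_simple_le_iff]
      have := inv_mem (mem_adjoin_simple_self κ₀ x⁻¹)
      rwa [inv_inv] at this
    · rw [adjoin_simple_le_iff]
      exact inv_mem (mem_adjoin_simple_self κ₀ x)
  have key : ∀ L : IntermediateField κ₀ F, κ₀⟮x⟯ = L → FiniteDimensional L F ∧ Algebra.IsSeparable L F := by
    rintro L rfl
    exact ⟨inferInstance, inferInstance⟩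
  obtain ⟨hf, hs⟩ := key _ hL
  obtain ⟨V₁, v₁, a₁, b₁, c₁⟩ := chart (κ := κ₀) x
  obtain ⟨V₂, v₂, a₂, b₂, c₂⟩ := chart (κ := κ₀) x⁻¹
  refine ⟨V₁ ⊕ V₂, Sum.elim v₁ v₂, ?_, ?_, ?_⟩
  · rintro (i | i)
    · exact a₁ i
    · exact a₂ i
  · intro z hz
    refine (((b₁ z hz).image Sum.inl).union ((b₂ z hz).image Sum.inr)).subset ?_
    rintro (i | i) hi
    · exact Or.inl ⟨i, hi, rfl⟩
    · exact Or.inr ⟨i, hi, rfl⟩
  · intro z
    constructor
    · intro hz
      have hz' : IsIntegral κ₀ z := (isAlgebraic_iff_isIntegral).1 hz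
      rintro (i | i) hz0
      · exact (c₁ z).1 hz'.tower_top i hz0
      · exact (c₂ z).1 hz'.tower_top i hz0
    · intro hz
      exact cap hx ((c₁ z).2 fun i => hz (Sum.inl i)) ((c₂ z).2 fun i => hz (Sum.inr i))

/-- **The valuations of a function field.** -/
theorem step {k F : Type} [Field k] [PerfectField k] [Field F] [Algebra k F] [Algebra.EssFiniteType k F] {n : ℕ}
    (h : Algebra.trdeg k F ≤ n + 1) (h0 : ¬ Algebra.IsAlgebraic k F) :
    ∃ (V : Type) (v : V → F → ℤ) (κ : IntermediateField k F), Vals F V v (κ : Set F) ∧ Algebra.trdeg k κ ≤ n := by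
  classical
  obtain ⟨s, hs, hsep⟩ := exists_isTranscendenceBasis_and_isSeparable_of_perfectField k F
  have hne : s.Nonempty := by
    rw [Finset.nonempty_iff_ne_empty]
    rintro rfl
    apply h0
    rw [← trdeg_eq_zero_iff, ← hs.cardinalMk_eq_trdeg]
    simp
  obtain ⟨x, hx⟩ := hne
  obtain ⟨κ₀, hκ₀⟩ : ∃ κ₀ : IntermediateField k F, κ₀ = adjoin k ((s.erase x : Finset F) : Set F) := ⟨_, rfl⟩
  -- `x` is transcendental over `κ₀`
  have hins : insert x ((s.erase x : Finset F) : Set F) = (s : Set F) := by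
    rw [← Finset.coe_insert, Finset.insert_erase hx]
  have hxt : Transcendental κ₀ x := by
    have h1 : AlgebraicIndepOn k id (insert x ((s.erase x : Finset F) : Set F)) := by
      rw [hins]
      exact hs.1
    have h2 := ((AlgebraicIndepOn.insert_iff (R := k) (x := (id : F → F)) (i := x)
      (s := ((s.erase x : Finset F) : Set F)) (by simp)).1 h1).2
    rw [Set.image_id] at h2
    subst hκ₀
    intro h3
    exact h2 ((IsFractionRing.isAlgebraic_iff (Algebra.adjoin k ((s.erase x : Finset F) : Set F))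
      (adjoin k ((s.erase x : Finset F) : Set F)) F).2 h3)
  -- `F` is finite and separable over `κ₀(x)`
  have hres : (κ₀⟮x⟯).restrictScalars k = adjoin k (s : Set F) := by
    rw [hκ₀, adjoin_adjoin_left, ← hins, Set.union_comm, Set.singleton_union]
  have hsep' : Algebra.IsSeparable κ₀⟮x⟯ F := by
    have key : ∀ L : IntermediateField k F, adjoin k (s : Set F) = L → Algebra.IsSeparable L F := by
      rintro L rfl
      exact hsep
    exact key _ hres.symm
  have htow : IsScalarTower k κ₀⟮x⟯ F := IsScalarTower.of_algebraMap_eq fun _ => rfl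
  have hess : Algebra.EssFiniteType κ₀⟮x⟯ F := Algebra.EssFiniteType.of_comp k κ₀⟮x⟯ F
  have hfin : FiniteDimensional κ₀⟮x⟯ F := Algebra.finite_of_essFiniteType_of_isAlgebraic
  obtain ⟨V, v, hv⟩ := vals_of_transcendental hxt
  refine ⟨V, v, (algebraicClosure κ₀ F).restrictScalars k, ?_, ?_⟩
  · refine ⟨hv.1, hv.2.1, fun z => ?_⟩
    rw [← hv.2.2 z]
    change z ∈ algebraicClosure κ₀ F ↔ _
    rw [mem_algebraicClosure_iff]
    rfl
  · -- the transcendence degree
    obtain ⟨κ, hκ⟩ : ∃ κ : IntermediateField k F, κ = (algebraicClosure κ₀ F).restrictScalars k := ⟨_, rfl⟩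
    rw [← hκ]
    have h1 : Algebra.trdeg k κ + Algebra.trdeg κ F = Algebra.trdeg k F := trdeg_add_eq k κ
    have h2 : Algebra.trdeg κ F ≠ 0 := by
      rw [Ne, trdeg_eq_zero_iff]
      intro halg
      have h3 : IsAlgebraic (algebraicClosure κ₀ F) x := by
        have h4 := halg.isAlgebraic x
        subst hκ
        exact h4
      have h5 : IsAlgebraic κ₀ x := h3.restrictScalars κ₀
      exact hxt h5
    have h3 : 1 ≤ Algebra.trdeg κ F := Cardinal.one_le_iff_ne_zero.2 h2
    have h4 : Algebra.trdeg k κ + 1 ≤ n + 1 := by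
      calc Algebra.trdeg k κ + 1 ≤ Algebra.trdeg k κ + Algebra.trdeg κ F := by gcongr
        _ = Algebra.trdeg k F := h1
        _ ≤ n + 1 := h
    have h5 : (n : Cardinal) + 1 = ((n + 1 : ℕ) : Cardinal) := by push_cast; rfl
    have h6 : Algebra.trdeg k κ < Cardinal.aleph0 := by
      refine lt_of_le_of_lt ?_ (Cardinal.natCast_lt_aleph0 (n := n + 1))
      rw [← h5]
      exact le_self_add.trans h4
    obtain ⟨m, hm⟩ := Cardinal.lt_aleph0.1 h6
    rw [hm] at h4 ⊢
    have h7 : ((m + 1 : ℕ) : Cardinal) ≤ ((n + 1 : ℕ) : Cardinal) := by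
      push_cast
      exact h4
    have h8 : m + 1 ≤ n + 1 := by exact_mod_cast h7
    have h9 : m ≤ n := by omega
    exact_mod_cast h9

end Pool.Agent.H25.GF
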